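import Mathlib
import Pool.Agent.Helper15.SG.Main

/-! Sophie Germain cyclic numbers between consecutive squares, for all sufficiently large `n`. -/

namespace Pool.Agent.Results.MP_61b4dd_nt.SufficientlyLarge

open Filter

/-- `n` is a cyclic number: a positive integer with `gcd (n, φ n) = 1`. -/
def IsCyclicNumber (n : ℕ) : Prop := 0 < n ∧ Nat.gcd n (Nat.totient n) = 1

/-- `c` is a Sophie Germain cyclic: `c` and `2 c + 1` are cyclic numbers. -/
def IsSGCyclic (c : ℕ) : Prop := IsCyclicNumber c ∧ IsCyclicNumber (2 * c + 1)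

/-- The Sophie Germain cyclics `m` with `a < m < b`. -/
def sgBetween (a b : ℕ) : Set ℕ := {m | a < m ∧ m < b ∧ IsSGCyclic m}

theorem finite_sg (a b : ℕ) : (sgBetween a b).Finite :=
  (Set.finite_Ioo a b).subset (fun _ hm => ⟨hm.1, hm.2.1⟩)

theorem card_SGI_le (X H b : ℕ) (hb : X + H < b) :
    ((Pool.Agent.Helper15.SG.SGI X H).card : ℝ) ≤ ((sgBetween X b).ncard : ℝ) := by
  classical
  have h1 : (Pool.Agent.Helper15.SG.SGI X H : Set ℕ) ⊆ sgBetween X b := by
    intro m hm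
    rw [Finset.mem_coe, Pool.Agent.Helper15.SG.SGI, Finset.mem_filter, Finset.mem_Ioc] at hm
    exact ⟨hm.1.1, by omega, hm.2⟩
  have h2 := Set.ncard_le_ncard h1 (finite_sg X b)
  rw [Set.ncard_coe_finset] at h2
  exact_mod_cast h2

theorem ev_ratio (c : ℝ) (hc : 0 < c) : ∀ᶠ n : ℕ in atTop, 0 < Real.log (Real.log n) ∧
    2 * Real.log n ≤ (Real.log n) ^ 2 ∧ (Real.log (Real.log n)) ^ 2 * 2 ≤ c * n := by
  have hlog : Tendsto (fun n : ℕ => Real.log (n : ℝ)) atTop atTop :=
    Real.tendsto_log_atTop.comp tendsto_natCast_atTop_atTop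
  have hll : Tendsto (fun n : ℕ => Real.log (Real.log (n : ℝ))) atTop atTop :=
    Real.tendsto_log_atTop.comp hlog
  have h3 : Tendsto (fun n : ℕ => (Real.log (n : ℝ)) ^ 2 / (n : ℝ)) atTop (nhds 0) := by
    have h4 : (fun x : ℝ => (Real.log x) ^ 2) =o[atTop] (fun x : ℝ => x) := by
      exact Real.isLittleO_pow_log_id_atTop (n := 2)
    exact h4.tendsto_div_nhds_zero.comp tendsto_natCast_atTop_atTop
  have h4 : ∀ᶠ n : ℕ in atTop, (Real.log (n : ℝ)) ^ 2 / (n : ℝ) < c / 2 :=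
    h3.eventually_lt_const (by positivity)
  filter_upwards [hll.eventually_gt_atTop 0, hlog.eventually_ge_atTop 2, h4,
    eventually_gt_atTop 0] with n a1 a2 a3 a4
  have hn : (0 : ℝ) < n := by exact_mod_cast a4
  refine ⟨a1, by nlinarith, ?_⟩
  have h5 : Real.log (Real.log n) ≤ Real.log n := by
    have := Real.log_le_sub_one_of_pos (x := Real.log (n : ℝ)) (by linarith)
    linarith
  have h6 : (Real.log (Real.log n)) ^ 2 ≤ (Real.log n) ^ 2 := by gcongr
  rw [div_lt_iff₀ hn] at a3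
  linarith

/-- **All sufficiently large `n`.**  There are `c > 0` and `N` such that for all `n ≥ N` the open
interval `(n², (n+1)²)` contains at least two Sophie Germain cyclics; it contains in fact at least
`c n / (log log n)²` of them. -/
theorem result : ∃ c : ℝ, 0 < c ∧ ∃ N : ℕ, ∀ n : ℕ, N ≤ n →
    2 ≤ (sgBetween (n ^ 2) ((n + 1) ^ 2)).ncard ∧
    c * n / (Real.log (Real.log n)) ^ 2 ≤ ((sgBetween (n ^ 2) ((n + 1) ^ 2)).ncard : ℝ) := by
  obtain ⟨c, hc, X₀, hmain⟩ := Pool.Agent.Helper15.SG.main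
  have hev := ev_ratio (c / 4) (by positivity)
  rw [eventually_atTop] at hev
  obtain ⟨N₁, hN₁⟩ := hev
  refine ⟨c / 4, by positivity, max X₀ (max N₁ 2), ?_⟩
  intro n hn
  have hn1 : N₁ ≤ n := (le_max_left _ _).trans ((le_max_right _ _).trans hn)
  have hn2 : 2 ≤ n := (le_max_right _ _).trans ((le_max_right _ _).trans hn)
  have hnX : X₀ ≤ n := (le_max_left _ _).trans hn
  obtain ⟨g1, g2, g3⟩ := hN₁ n hn1
  have hX : X₀ ≤ n ^ 2 := by nlinarith
  obtain ⟨h1, h2⟩ := hmain (n ^ 2) hX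
  have hsq : Nat.sqrt (n ^ 2) = n := Nat.sqrt_eq' n
  have hsq' : √(((n ^ 2 : ℕ)) : ℝ) = n := by
    push_cast
    exact Real.sqrt_sq (by positivity)
  rw [hsq, hsq'] at h2
  have h3 := card_SGI_le (n ^ 2) (n + 1) ((n + 1) ^ 2) (by nlinarith)
  have hnpos : (0 : ℝ) < n := by exact_mod_cast (show 0 < n by omega)
  have hlog : Real.log ((n ^ 2 : ℕ) : ℝ) = 2 * Real.log n := by
    push_cast
    rw [Real.log_pow]
    push_cast
    ring
  have hlogn : 0 < Real.log (n : ℝ) := Real.log_pos (by exact_mod_cast (show 1 < n by omega))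
  have hll : Real.log (Real.log ((n ^ 2 : ℕ) : ℝ)) ≤ 2 * Real.log (Real.log n) := by
    rw [hlog]
    calc Real.log (2 * Real.log n) ≤ Real.log ((Real.log n) ^ 2) :=
          Real.log_le_log (by positivity) g2
      _ = 2 * Real.log (Real.log n) := by rw [Real.log_pow]; push_cast; ring
  set S : ℝ := ((sgBetween (n ^ 2) ((n + 1) ^ 2)).ncard : ℝ) with hS
  have hS0 : 0 ≤ S := by positivity
  have h5 : c * n ≤ 4 * (Real.log (Real.log n)) ^ 2 * S := by
    calc c * n ≤ (Real.log (Real.log ((n ^ 2 : ℕ) : ℝ))) ^ 2 *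
          ((Pool.Agent.Helper15.SG.SGI (n ^ 2) (n + 1)).card : ℝ) := h2
      _ ≤ (2 * Real.log (Real.log n)) ^ 2 * S := by gcongr
      _ = 4 * (Real.log (Real.log n)) ^ 2 * S := by ring
  have h6 : c / 4 * n / (Real.log (Real.log n)) ^ 2 ≤ S := by
    rw [div_le_iff₀ (by positivity)]
    linarith
  refine ⟨?_, h6⟩
  have h7 : (2 : ℝ) ≤ S := by
    refine le_trans ?_ h6
    rw [le_div_iff₀ (by positivity)]
    linarith
  rw [hS] at h7
  exact_mod_cast h7

end Pool.Agent.Results.MP_61b4dd_nt.SufficientlyLarge
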